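import Mathlib

/-!
# MP_275a7d_co: edges in exactly one negative chordless circle, definitions

Signed graphs on a simple graph `G` with vertex type `V`; the signature is a function on unordered
pairs (only its values on the edges of `G` matter).
-/

set_option autoImplicit false

namespace Pool.Agent.MP275a7d

open Finset

open Classical in
/-- `W` is the vertex set of a chordless circle of the simple graph `G`: the subgraph induced on `W` is
connected and every vertex of `W` has exactly two neighbours in `W` -/
def IsChordlessCircle {V : Type} (G : SimpleGraph V) (W : Finset V) : Prop :=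
  (G.induce (W : Set V)).Connected ∧ ∀ v ∈ W, (W.filter (fun w => G.Adj v w)).card = 2

open Classical in
/-- the sign of the chordless circle with vertex set `W`: the product of the signs of the edges of `G`
with both ends in `W` -/
noncomputable def circleSign {V : Type} [Fintype V] (G : SimpleGraph V) (σ : Sym2 V → ℤˣ)
    (W : Finset V) : ℤˣ :=
  ∏ f ∈ G.edgeFinset.filter (fun f => ∀ v ∈ f, v ∈ W), σ f

/-- the number of negative chordless circles which contain the edge `x y` -/
noncomputable def hMinus {V : Type} [Fintype V] (G : SimpleGraph V) (σ : Sym2 V → ℤˣ)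
    (x y : V) : ℕ :=
  Nat.card {W : Finset V //
    IsChordlessCircle G W ∧ circleSign G σ W = -1 ∧ s(x, y) ∈ G.edgeSet ∧ x ∈ W ∧ y ∈ W}

/-- The vertices of the graph of a formula with `n` variables and `m` clauses of `K` literals:
hubs `h p b` (`p ≤ n`; track `b`), literal vertices `l i v b` (variable `i`, value `v`, track `b`),
clause hubs `c j` (`j ≤ m`), option vertices `o j k` (literal `k` of clause `j`), and `z`. -/
inductive Vtx (K n m : ℕ) : Type
  | h : Fin (n + 1) → Bool → Vtx K n m
  | l : Fin n → Bool → Bool → Vtx K n m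
  | c : Fin (m + 1) → Vtx K n m
  | o : Fin m → Fin K → Vtx K n m
  | z : Vtx K n m
  deriving DecidableEq, Fintype

/-- the value `v` of the variable `i` forbids to use literal `k` of clause `j` (as the first true
literal): either literal `k` is the literal `i = !v`, or an earlier literal of the clause is `i = v`.
A literal is a pair (variable, value which makes it true). -/
def Forb {K n m : ℕ} (φ : Fin m → Fin K → Fin n × Bool) (j : Fin m) (k : Fin K) (i : Fin n)
    (v : Bool) : Prop :=
  φ j k = (i, !v) ∨ ∃ k', k' < k ∧ φ j k' = (i, v)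

/-- adjacency in the graph of the formula `φ` -/
def adj {K n m : ℕ} (φ : Fin m → Fin K → Fin n × Bool) : Vtx K n m → Vtx K n m → Prop
  | .h p b, .h q b' => p.val = 0 ∧ q.val = 0 ∧ b ≠ b'
  | .h p b, .l i _ b' => b = b' ∧ (p.val = i.val ∨ p.val = i.val + 1)
  | .l i _ b', .h p b => b = b' ∧ (p.val = i.val ∨ p.val = i.val + 1)
  | .l i v b, .l i' v' b' => i = i' ∧ v ≠ v' ∧ b ≠ b'
  | .h p b, .c j => p.val = n ∧ ((b = true ∧ j.val = 0) ∨ (b = false ∧ j.val = m))
  | .c j, .h p b => p.val = n ∧ ((b = true ∧ j.val = 0) ∨ (b = false ∧ j.val = m))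
  | .c j, .o j' _ => j.val = j'.val ∨ j.val = j'.val + 1
  | .o j' _, .c j => j.val = j'.val ∨ j.val = j'.val + 1
  | .o j k, .l i v _ => Forb φ j k i v
  | .l i v _, .o j k => Forb φ j k i v
  | .z, .h p _ => p.val = 0
  | .h p _, .z => p.val = 0
  | _, _ => False

/-- the graph of the formula `φ` -/
def satGraph {K n m : ℕ} (φ : Fin m → Fin K → Fin n × Bool) : SimpleGraph (Vtx K n m) where
  Adj := adj φ
  symm := ⟨by
    intro x y h
    cases x <;> cases y <;> simp only [adj] at h ⊢
    all_goals first
      | exact h
      | exact ⟨h.2.1, h.1, Ne.symm h.2.2⟩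
      | exact ⟨h.1.symm, Ne.symm h.2.1, Ne.symm h.2.2⟩⟩
  loopless := ⟨by
    intro x h
    cases x <;> simp [adj] at h⟩

/-- the number of the satisfying assignments of the formula `φ` -/
noncomputable def numSat {K n m : ℕ} (φ : Fin m → Fin K → Fin n × Bool) : ℕ :=
  Nat.card {a : Fin n → Bool // ∀ j, ∃ k, a (φ j k).1 = (φ j k).2}

/-- the only negative edge is `f`, which joins the last hub of track `false` and the last clause hub -/
def sgn1 {K n m : ℕ} (e : Sym2 (Vtx K n m)) : ℤˣ :=
  if e = s(Vtx.h (Fin.last n) false, Vtx.c (Fin.last m)) then -1 else 1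

/-- the negative edges are `f` and the edge which joins `z` and the first hub of track `false` -/
def sgn2 {K n m : ℕ} (e : Sym2 (Vtx K n m)) : ℤˣ :=
  if e = s(Vtx.h (Fin.last n) false, Vtx.c (Fin.last m)) ∨ e = s(Vtx.z, Vtx.h 0 false) then -1 else 1

end Pool.Agent.MP275a7d
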