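import Pool.Agent.Lib.MP_275a7d_co.H18.Defs

/-!
# MP_275a7d_co: a chordless circle through the two special edges gives a satisfying assignment
-/

set_option autoImplicit false

namespace Pool.Agent.MP275a7d

open Finset

section gen

variable {V : Type} {G : SimpleGraph V} {W : Finset V}

theorem two_eq (h : IsChordlessCircle G W) {v p q w : V} (hv : v ∈ W) (hp : p ∈ W) (hq : q ∈ W)
    (hw : w ∈ W) (hpq : p ≠ q) (h1 : G.Adj v p) (h2 : G.Adj v q) (h3 : G.Adj v w) :
    w = p ∨ w = q := by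
  classical
  have hc := h.2 v hv
  by_contra hno
  rw [not_or] at hno
  have hsub : ({p, q, w} : Finset V) ⊆ W.filter (fun w => G.Adj v w) := by
    intro u hu
    simp only [mem_insert, mem_singleton] at hu
    rcases hu with rfl | rfl | rfl
    · exact mem_filter.2 ⟨hp, h1⟩
    · exact mem_filter.2 ⟨hq, h2⟩
    · exact mem_filter.2 ⟨hw, h3⟩
  have h4 := card_le_card hsub
  have h5 : ({p, q, w} : Finset V).card = 3 :=
    card_eq_three.2 ⟨p, q, w, hpq, Ne.symm hno.1, Ne.symm hno.2, rfl⟩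
  have h6 : (W.filter (fun w => G.Adj v w)).card = 2 := by
    convert hc
  omega

theorem other (h : IsChordlessCircle G W) {v : V} (hv : v ∈ W) (p : V) :
    ∃ q ∈ W, q ≠ p ∧ G.Adj v q := by
  classical
  have hc := h.2 v hv
  obtain ⟨x, y, hxy, he⟩ := card_eq_two.1 hc
  have hx : x ∈ W.filter (fun w => G.Adj v w) := by
    rw [he]
    simp
  have hy : y ∈ W.filter (fun w => G.Adj v w) := by
    rw [he]
    simp
  by_cases hxp : x = p
  · exact ⟨y, (mem_filter.1 hy).1, fun h => hxy (hxp.trans h.symm), (mem_filter.1 hy).2⟩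
  · exact ⟨x, (mem_filter.1 hx).1, hxp, (mem_filter.1 hx).2⟩

theorem walk_closed (P : V → Prop) (hP : ∀ v w, v ∈ W → w ∈ W → P v → G.Adj v w → P w) :
    ∀ (u v : (W : Set V)), (G.induce (W : Set V)).Walk u v → P u.1 → P v.1
  | _, _, .nil, h => h
  | _, _, .cons (v := w) hadj p, h =>
    walk_closed P hP w _ p (hP _ _ (mem_coe.1 (Subtype.prop _)) (mem_coe.1 w.2) h hadj)

theorem closed (h : IsChordlessCircle G W) (P : V → Prop) (hPW : ∀ v, P v → v ∈ W) {x : V}
    (hx : P x)
    (hP : ∀ v, P v → ∃ p q, p ≠ q ∧ P p ∧ P q ∧ G.Adj v p ∧ G.Adj v q) : ∀ w ∈ W, P w := by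
  intro w hw
  obtain ⟨p⟩ := h.1.preconnected ⟨x, mem_coe.2 (hPW x hx)⟩ ⟨w, mem_coe.2 hw⟩
  refine walk_closed P ?_ _ _ p hx
  intro v w hv hw hPv hvw
  obtain ⟨r, s, hrs, hr, hs, h1, h2⟩ := hP v hPv
  rcases two_eq h hv (hPW r hr) (hPW s hs) hw hrs h1 h2 hvw with rfl | rfl
  · exact hr
  · exact hs

theorem conn_of {x : V} (hx : x ∈ W)
    (h : ∀ P : V → Prop, P x → (∀ v w, v ∈ W → w ∈ W → P v → G.Adj v w → P w) → ∀ w ∈ W, P w) :
    (G.induce (W : Set V)).Connected := by
  have key := h (fun w => ∃ hw : w ∈ (W : Set V),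
    (G.induce (W : Set V)).Reachable ⟨x, mem_coe.2 hx⟩ ⟨w, hw⟩)
    ⟨mem_coe.2 hx, SimpleGraph.Reachable.refl _⟩ (by
      rintro v w hv hw ⟨hv', hr⟩ hvw
      refine ⟨mem_coe.2 hw, hr.trans (SimpleGraph.Adj.reachable ?_)⟩
      exact hvw)
  rw [SimpleGraph.connected_iff_exists_forall_reachable]
  refine ⟨⟨x, mem_coe.2 hx⟩, fun w => ?_⟩
  obtain ⟨hw, hr⟩ := key w.1 (mem_coe.1 w.2)
  exact hr

end gen

variable {K n m : ℕ} {φ : Fin m → Fin K → Fin n × Bool} {W : Finset (Vtx K n m)}
  {a : Fin n → Bool} {i : ℕ}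

/-- the state of the induction: the levels below `i` are passed in the right way -/
structure St (φ : Fin m → Fin K → Fin n × Bool) (W : Finset (Vtx K n m)) (a : Fin n → Bool)
    (i : ℕ) : Prop where
  hub : ∀ p : Fin (n + 1), p.val ≤ i → ∀ b, Vtx.h p b ∈ W
  lit : ∀ q : Fin n, q.val < i → ∀ v b, (Vtx.l q v b ∈ W ↔ v = a q)
  opt : ∀ q : Fin n, q.val < i → ∀ j k, Forb φ j k q (a q) → Vtx.o j k ∉ W

/-- the part of the circle up to level `i` -/
def Kp (a : Fin n → Bool) (i : ℕ) : Vtx K n m → Prop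
  | .h p _ => p.val ≤ i
  | .l q v _ => q.val < i ∧ v = a q
  | _ => False

theorem St.mem (h : St φ W a i) {v : Vtx K n m} (hv : Kp a i v) : v ∈ W := by
  cases v with
  | h p b => exact h.hub p hv b
  | l q v b => exact (h.lit q hv.1 v b).2 hv.2
  | c j => exact hv.elim
  | o j k => exact hv.elim
  | z => exact hv.elim

theorem St.pre (h : St φ W a i) (p : Fin (n + 1)) (hp : p.val ≤ i) (b : Bool) :
    ∃ r : Vtx K n m, Kp a p.val r ∧ (satGraph φ).Adj (.h p b) r ∧
      ∀ w ∈ W, (satGraph φ).Adj (.h p b) w →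
        w = r ∨ (∃ q v, q.val = p.val ∧ w = .l q v b) ∨ (∃ j, w = .c j) ∨ w = .z := by
  rcases Nat.eq_zero_or_pos p.val with hp0 | hp0
  · refine ⟨.h 0 (!b), ?_, ?_, ?_⟩
    · show (0 : Fin (n + 1)).val ≤ p.val
      simp
    · show p.val = 0 ∧ (0 : Fin (n + 1)).val = 0 ∧ b ≠ !b
      exact ⟨hp0, rfl, by cases b <;> decide⟩
    · intro w hw hadj
      cases w with
      | h q b' =>
        left
        obtain ⟨-, h2, h3⟩ : p.val = 0 ∧ q.val = 0 ∧ b ≠ b' := hadj
        have hq : q = 0 := Fin.ext h2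
        subst hq
        congr 1
        cases b <;> cases b' <;> simp_all
      | l q v b' =>
        right
        left
        obtain ⟨h2, h3⟩ : b = b' ∧ (p.val = q.val ∨ p.val = q.val + 1) := hadj
        subst h2
        exact ⟨q, v, by omega, rfl⟩
      | c j => exact Or.inr (Or.inr (Or.inl ⟨j, rfl⟩))
      | o j k => exact (hadj : False).elim
      | z => exact Or.inr (Or.inr (Or.inr rfl))
  · obtain ⟨t, ht⟩ : ∃ t, p.val = t + 1 := ⟨p.val - 1, by omega⟩
    have htn : t < n := by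
      have := p.isLt
      omega
    refine ⟨.l ⟨t, htn⟩ (a ⟨t, htn⟩) b, ?_, ?_, ?_⟩
    · show t < p.val ∧ _
      exact ⟨by omega, rfl⟩
    · show b = b ∧ (p.val = t ∨ p.val = t + 1)
      exact ⟨rfl, Or.inr ht⟩
    · intro w hw hadj
      cases w with
      | h q b' =>
        obtain ⟨h1, -⟩ : p.val = 0 ∧ q.val = 0 ∧ b ≠ b' := hadj
        omega
      | l q v b' =>
        obtain ⟨h2, h3⟩ : b = b' ∧ (p.val = q.val ∨ p.val = q.val + 1) := hadj
        subst h2
        rcases h3 with h3 | h3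
        · exact Or.inr (Or.inl ⟨q, v, h3.symm, rfl⟩)
        · left
          have hq : q = ⟨t, htn⟩ := Fin.ext (by
            show q.val = t
            omega)
          subst hq
          have h4 := (h.lit ⟨t, htn⟩ (by
            show t < i
            omega) v b).1 hw
          rw [h4]
      | c j => exact Or.inr (Or.inr (Or.inl ⟨j, rfl⟩))
      | o j k => exact (hadj : False).elim
      | z =>
        have h1 : p.val = 0 := hadj
        omega

theorem Kp.mono {j : ℕ} (hij : j ≤ i) {v : Vtx K n m} (hv : Kp a j v) : Kp a i v := by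
  cases v with
  | h p b =>
    have h1 : p.val ≤ j := hv
    show p.val ≤ i
    omega
  | l q v b =>
    have h1 : q.val < j ∧ v = a q := hv
    exact ⟨by omega, h1.2⟩
  | c j => exact hv.elim
  | o j k => exact hv.elim
  | z => exact hv.elim

theorem St.core (hc : IsChordlessCircle (satGraph φ) W) (h : St φ W a i) (hi : i < n)
    (D : Vtx K n m → Prop) (hDW : ∀ v, D v → v ∈ W)
    (hDn : ∀ v, D v → ∃ p q, p ≠ q ∧ (Kp a i p ∨ D p) ∧ (Kp a i q ∨ D q) ∧
      (satGraph φ).Adj v p ∧ (satGraph φ).Adj v q)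
    (hDh : ∀ b, ∃ q, D q ∧ ¬ Kp a i q ∧
      (satGraph φ).Adj (.h ⟨i, Nat.lt_succ_of_lt hi⟩ b) q) :
    ∀ w ∈ W, Kp a i w ∨ D w := by
  refine closed hc (fun v => Kp a i v ∨ D v) ?_ (x := .h 0 true) (Or.inl ?_) ?_
  · rintro v (hv | hv)
    · exact h.mem hv
    · exact hDW v hv
  · show (0 : Fin (n + 1)).val ≤ i
    simp
  · rintro v (hv | hv)
    · cases v with
      | h p b =>
        have hp : p.val ≤ i := hv
        obtain ⟨r, hr, hadj, -⟩ := h.pre p hp b
        rcases Nat.lt_or_ge p.val i with hlt | hge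
        · refine ⟨r, .l ⟨p.val, by omega⟩ (a ⟨p.val, by omega⟩) b, ?_,
            Or.inl (hr.mono hp), Or.inl ⟨hlt, rfl⟩, hadj, ?_⟩
          · rintro rfl
            exact absurd hr.1 (lt_irrefl _)
          · show b = b ∧ (p.val = p.val ∨ p.val = p.val + 1)
            exact ⟨rfl, Or.inl rfl⟩
        · obtain ⟨q, hq1, hq2, hq3⟩ := hDh b
          have hpi : p = ⟨i, Nat.lt_succ_of_lt hi⟩ := Fin.ext (le_antisymm hp hge)
          subst hpi
          refine ⟨r, q, ?_, Or.inl (hr.mono hp), Or.inr hq1, hadj, hq3⟩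
          rintro rfl
          exact hq2 (hr.mono hp)
      | l q v b =>
        obtain ⟨h1, h2⟩ : q.val < i ∧ v = a q := hv
        refine ⟨.h q.castSucc b, .h q.succ b, ?_, Or.inl ?_, Or.inl ?_, ?_, ?_⟩
        · intro he
          have h3 := (Vtx.h.injEq _ _ _ _ ▸ he).1
          have h4 := congrArg Fin.val h3
          simp at h4
        · show q.castSucc.val ≤ i
          rw [Fin.val_castSucc]
          omega
        · show q.succ.val ≤ i
          rw [Fin.val_succ]
          omega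
        · show b = b ∧ (q.castSucc.val = q.val ∨ q.castSucc.val = q.val + 1)
          exact ⟨rfl, Or.inl rfl⟩
        · show b = b ∧ (q.succ.val = q.val ∨ q.succ.val = q.val + 1)
          exact ⟨rfl, Or.inr (Fin.val_succ q)⟩
      | c j => exact (hv : False).elim
      | o j k => exact (hv : False).elim
      | z => exact (hv : False).elim
    · obtain ⟨p, q, h1, h2, h3, h4, h5⟩ := hDn v hv
      exact ⟨p, q, h1, h2, h3, h4, h5⟩

theorem St.step (hc : IsChordlessCircle (satGraph φ) W) (hz : Vtx.z ∉ W)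
    (hcm : Vtx.c (Fin.last m) ∈ W) (ha : ∀ q : Fin n, a q = true ↔ Vtx.l q true true ∈ W)
    (h : St φ W a i) (hi : i < n) : St φ W a (i + 1) := by
  -- the hub and the literal vertices of level `i`
  have hin : i < n + 1 := Nat.lt_succ_of_lt hi
  have hex : ∀ b, ∃ v0, ∀ v, (Vtx.l (⟨i, hi⟩ : Fin n) v b ∈ W ↔ v = v0) := by
    intro b
    obtain ⟨r, hr, hadj, hall⟩ := h.pre ⟨i, hin⟩ le_rfl b
    have hrW := h.mem (hr.mono (i := i) le_rfl)
    obtain ⟨q, hq, hqr, hqa⟩ := other hc (h.hub ⟨i, hin⟩ le_rfl b) r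
    rcases hall q hq hqa with h1 | ⟨q', v0, h1, h2⟩ | ⟨j, h1⟩ | h1
    · exact absurd h1 hqr
    · have hq' : q' = ⟨i, hi⟩ := Fin.ext h1
      subst hq'
      subst h2
      refine ⟨v0, fun v => ⟨fun hv => ?_, fun hv => hv ▸ hq⟩⟩
      have hva : (satGraph φ).Adj (.h ⟨i, hin⟩ b) (.l (⟨i, hi⟩ : Fin n) v b) := by
        show b = b ∧ (i = i ∨ i = i + 1)
        exact ⟨rfl, Or.inl rfl⟩
      rcases two_eq hc (h.hub ⟨i, hin⟩ le_rfl b) hrW hq hv hqr.symm hadj hqa hva with h3 | h3
      · rw [← h3] at hr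
        exact absurd hr.1 (lt_irrefl _)
      · exact ((Vtx.l.injEq _ _ _ _ _ _) ▸ h3).2.1
    · subst h1
      obtain ⟨h2, -⟩ : i = n ∧ _ := hqa
      omega
    · exact absurd (h1 ▸ hq) hz
  obtain ⟨vt, hvt⟩ := hex true
  obtain ⟨vf, hvf⟩ := hex false
  have hnK : ∀ v b, ¬ Kp (K := K) (m := m) a i (.l (⟨i, hi⟩ : Fin n) v b) := by
    rintro v b ⟨h1, -⟩
    exact lt_irrefl _ h1
  have hhub : ∀ b, Kp (K := K) (m := m) a i (.h (⟨i, hin⟩ : Fin (n + 1)) b) := fun b => le_rfl
  have hal : ∀ b v, (satGraph φ).Adj (.h ⟨i, hin⟩ b) (.l (⟨i, hi⟩ : Fin n) v b) := by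
    intro b v
    show b = b ∧ (i = i ∨ i = i + 1)
    exact ⟨rfl, Or.inl rfl⟩
  -- consistency
  have hvv : vt = vf := by
    by_contra hne
    have h1 := h.core hc hi (fun w => w = .l (⟨i, hi⟩ : Fin n) vt true ∨
      w = .l (⟨i, hi⟩ : Fin n) vf false) (by
        rintro v (rfl | rfl)
        · exact (hvt vt).2 rfl
        · exact (hvf vf).2 rfl) (by
        rintro v (rfl | rfl)
        · refine ⟨.h ⟨i, hin⟩ true, .l (⟨i, hi⟩ : Fin n) vf false, by simp, Or.inl (hhub true),
            Or.inr (Or.inr rfl), (hal true vt).symm, ?_⟩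
          show (⟨i, hi⟩ : Fin n) = ⟨i, hi⟩ ∧ vt ≠ vf ∧ true ≠ false
          exact ⟨rfl, hne, by decide⟩
        · refine ⟨.h ⟨i, hin⟩ false, .l (⟨i, hi⟩ : Fin n) vt true, by simp, Or.inl (hhub false),
            Or.inr (Or.inl rfl), (hal false vf).symm, ?_⟩
          show (⟨i, hi⟩ : Fin n) = ⟨i, hi⟩ ∧ vf ≠ vt ∧ false ≠ true
          exact ⟨rfl, Ne.symm hne, by decide⟩) (by
        intro b
        cases b with
        | true => exact ⟨_, Or.inl rfl, hnK _ _, hal true vt⟩
        | false => exact ⟨_, Or.inr rfl, hnK _ _, hal false vf⟩) _ hcm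
    rcases h1 with h2 | h2 | h2
    · exact (h2 : False).elim
    · exact absurd h2 (by simp)
    · exact absurd h2 (by simp)
  subst hvv
  have hai : a ⟨i, hi⟩ = vt := by
    have h1 := ha ⟨i, hi⟩
    rw [hvt] at h1
    cases hA : a ⟨i, hi⟩ <;> cases vt <;> simp_all
  have hlit : ∀ v b, (Vtx.l (⟨i, hi⟩ : Fin n) v b ∈ W ↔ v = vt) := by
    intro v b
    cases b with
    | true => exact hvt v
    | false => exact hvf v
  have hopt : ∀ j k, Forb φ j k ⟨i, hi⟩ vt → Vtx.o j k ∉ W := by
    intro j k hF hW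
    have h1 := h.core hc hi (fun w => (∃ b, w = .l (⟨i, hi⟩ : Fin n) vt b) ∨ w = .o j k) (by
        rintro v (⟨b, rfl⟩ | rfl)
        · exact (hlit vt b).2 rfl
        · exact hW) (by
        rintro v (⟨b, rfl⟩ | rfl)
        · exact ⟨.h ⟨i, hin⟩ b, .o j k, by simp, Or.inl (hhub b), Or.inr (Or.inr rfl),
            (hal b vt).symm, hF⟩
        · exact ⟨.l (⟨i, hi⟩ : Fin n) vt true, .l (⟨i, hi⟩ : Fin n) vt false, by simp,
            Or.inr (Or.inl ⟨_, rfl⟩), Or.inr (Or.inl ⟨_, rfl⟩), hF, hF⟩) (by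
        intro b
        exact ⟨_, Or.inl ⟨b, rfl⟩, hnK _ _, hal b vt⟩) _ hcm
    rcases h1 with h2 | ⟨b, h2⟩ | h2
    · exact (h2 : False).elim
    · exact absurd h2 (by simp)
    · exact absurd h2 (by simp)
  have hnext : ∀ (p : Fin (n + 1)), p.val = i + 1 → ∀ b, Vtx.h p b ∈ W := by
    intro p hp b
    obtain ⟨q, hq, hqn, hqa⟩ := other hc ((hlit vt b).2 rfl) (.h ⟨i, hin⟩ b)
    cases q with
    | h p' b' =>
      obtain ⟨h1, h2⟩ : b' = b ∧ (p'.val = i ∨ p'.val = i + 1) := hqa
      subst h1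
      rcases h2 with h2 | h2
      · exact absurd (by rw [show p' = ⟨i, hin⟩ from Fin.ext h2]) hqn
      · rwa [show p = p' from Fin.ext (by omega)]
    | l q' v' b' =>
      obtain ⟨h1, h2, -⟩ : (⟨i, hi⟩ : Fin n) = q' ∧ vt ≠ v' ∧ b ≠ b' := hqa
      subst h1
      exact absurd ((hlit v' b').1 hq) (Ne.symm h2)
    | c j => exact (hqa : False).elim
    | o j k => exact absurd hq (hopt j k hqa)
    | z => exact absurd hq hz
  refine ⟨fun p hp b => ?_, fun q hq v b => ?_, fun q hq j k hF => ?_⟩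
  · rcases Nat.lt_or_ge i p.val with h1 | h1
    · exact hnext p (by omega) b
    · exact h.hub p h1 b
  · rcases Nat.lt_or_ge q.val i with h1 | h1
    · exact h.lit q h1 v b
    · have hqi : q = ⟨i, hi⟩ := Fin.ext (by
        show q.val = i
        omega)
      subst hqi
      rw [hai]
      exact hlit v b
  · rcases Nat.lt_or_ge q.val i with h1 | h1
    · exact h.opt q h1 j k hF
    · have hqi : q = ⟨i, hi⟩ := Fin.ext (by
        show q.val = i
        omega)
      subst hqi
      rw [hai] at hF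
      exact hopt j k hF

/-- all the levels are passed in the right way -/
theorem st_all (hc : IsChordlessCircle (satGraph φ) W) (hz : Vtx.z ∉ W)
    (hcm : Vtx.c (Fin.last m) ∈ W) (ha : ∀ q : Fin n, a q = true ↔ Vtx.l q true true ∈ W)
    (h0 : ∀ b, Vtx.h 0 b ∈ W) : St φ W a n := by
  have key : ∀ i, i ≤ n → St φ W a i := by
    intro i
    induction i with
    | zero =>
      intro _
      refine ⟨fun p hp b => ?_, fun q hq => absurd hq (Nat.not_lt_zero _),
        fun q hq => absurd hq (Nat.not_lt_zero _)⟩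
      rw [show p = 0 from Fin.ext (Nat.le_zero.1 hp)]
      exact h0 b
    | succ i ih =>
      intro hi
      exact (ih (by omega)).step hc hz hcm ha (by omega)
  exact key n le_rfl

/-- the state in the clause part -/
structure Cs (W : Finset (Vtx K n m)) (i : ℕ) : Prop where
  cl : ∀ p : Fin (m + 1), p.val ≤ i → Vtx.c p ∈ W
  op : ∀ q : Fin m, q.val < i → ∃ k0, ∀ k, (Vtx.o q k ∈ W ↔ k = k0)

theorem Cs.step (hc : IsChordlessCircle (satGraph φ) W) (hz : Vtx.z ∉ W) (hS : St φ W a n)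
    (h : Cs W i) (hi : i < m) : Cs W (i + 1) := by
  have him : i < m + 1 := Nat.lt_succ_of_lt hi
  -- the previous neighbour
  obtain ⟨r, hr, hadj, hrn, hall⟩ : ∃ r ∈ W, (satGraph φ).Adj (.c ⟨i, him⟩) r ∧
      (∀ k, Vtx.o (⟨i, hi⟩ : Fin m) k ≠ r) ∧
      ∀ w ∈ W, (satGraph φ).Adj (.c ⟨i, him⟩) w → w = r ∨ ∃ k, w = .o (⟨i, hi⟩ : Fin m) k := by
    rcases Nat.eq_zero_or_pos i with h0 | h0
    · refine ⟨.h (Fin.last n) true, hS.hub _ le_rfl _, ?_, by simp, ?_⟩
      · show (Fin.last n).val = n ∧ ((true = true ∧ i = 0) ∨ (true = false ∧ i = m))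
        exact ⟨rfl, Or.inl ⟨rfl, h0⟩⟩
      · intro w hw hadj
        cases w with
        | h p b =>
          left
          obtain ⟨h1, h2⟩ : p.val = n ∧ ((b = true ∧ i = 0) ∨ (b = false ∧ i = m)) := hadj
          rcases h2 with h2 | h2
          · rw [h2.1, show p = Fin.last n from Fin.ext h1]
          · omega
        | l q v b => exact (hadj : False).elim
        | c j => exact (hadj : False).elim
        | o j k =>
          right
          have h1 : i = j.val ∨ i = j.val + 1 := hadj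
          refine ⟨k, ?_⟩
          rw [show j = ⟨i, hi⟩ from Fin.ext (by
            show j.val = i
            omega)]
        | z => exact (hadj : False).elim
    · obtain ⟨t, ht⟩ : ∃ t, i = t + 1 := ⟨i - 1, by omega⟩
      have htm : t < m := by omega
      obtain ⟨k0, hk0⟩ := h.op ⟨t, htm⟩ (by
        show t < i
        omega)
      refine ⟨.o ⟨t, htm⟩ k0, (hk0 k0).2 rfl, ?_, ?_, ?_⟩
      · show i = t ∨ i = t + 1
        exact Or.inr ht
      · intro k he
        have h1 := congrArg Fin.val ((Vtx.o.injEq _ _ _ _) ▸ he).1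
        have h2 : i = t := h1
        omega
      · intro w hw hadj
        cases w with
        | h p b =>
          obtain ⟨h1, h2⟩ : p.val = n ∧ ((b = true ∧ i = 0) ∨ (b = false ∧ i = m)) := hadj
          omega
        | l q v b => exact (hadj : False).elim
        | c j => exact (hadj : False).elim
        | o j k =>
          have h1 : i = j.val ∨ i = j.val + 1 := hadj
          rcases h1 with h1 | h1
          · right
            refine ⟨k, ?_⟩
            rw [show j = ⟨i, hi⟩ from Fin.ext h1.symm]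
          · left
            have hj : j = ⟨t, htm⟩ := Fin.ext (by
              show j.val = t
              omega)
            subst hj
            rw [(hk0 k).1 hw]
        | z => exact (hadj : False).elim
  have hci := h.cl ⟨i, him⟩ le_rfl
  obtain ⟨q, hq, hqr, hqa⟩ := other hc hci r
  obtain ⟨k0, rfl⟩ := (hall q hq hqa).resolve_left hqr
  have huni : ∀ k, (Vtx.o (⟨i, hi⟩ : Fin m) k ∈ W ↔ k = k0) := by
    refine fun k => ⟨fun hk => ?_, fun hk => hk ▸ hq⟩
    have h1 : (satGraph φ).Adj (.c ⟨i, him⟩) (.o (⟨i, hi⟩ : Fin m) k) := by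
      show i = i ∨ i = i + 1
      exact Or.inl rfl
    rcases two_eq hc hci hr hq hk hqr.symm hadj hqa h1 with h2 | h2
    · exact absurd h2 (hrn k)
    · exact ((Vtx.o.injEq _ _ _ _) ▸ h2).2
  -- the next clause hub
  have hnext : ∀ (p : Fin (m + 1)), p.val = i + 1 → Vtx.c p ∈ W := by
    intro p hp
    obtain ⟨q, hq', hqn, hqa'⟩ := other hc hq (.c ⟨i, him⟩)
    cases q with
    | h p' b' => exact (hqa' : False).elim
    | l q' v' b' =>
      have h1 : Forb φ ⟨i, hi⟩ k0 q' v' := hqa'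
      have h2 := (hS.lit q' q'.isLt v' b').1 hq'
      rw [h2] at h1
      exact absurd hq (hS.opt q' q'.isLt _ _ h1)
    | c j =>
      have h1 : j.val = i ∨ j.val = i + 1 := hqa'
      rcases h1 with h1 | h1
      · exact absurd (by rw [show j = ⟨i, him⟩ from Fin.ext h1]) hqn
      · rwa [show p = j from Fin.ext (by omega)]
    | o j k => exact (hqa' : False).elim
    | z => exact absurd hq' hz
  refine ⟨fun p hp => ?_, fun q' hq' => ?_⟩
  · rcases Nat.lt_or_ge i p.val with h1 | h1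
    · exact hnext p (by omega)
    · exact h.cl p h1
  · rcases Nat.lt_or_ge q'.val i with h1 | h1
    · exact h.op q' h1
    · have hqi : q' = ⟨i, hi⟩ := Fin.ext (by
        show q'.val = i
        omega)
      subst hqi
      exact ⟨k0, huni⟩

theorem cs_all (hc : IsChordlessCircle (satGraph φ) W) (hz : Vtx.z ∉ W) (hS : St φ W a n) :
    Cs W m := by
  have h0 : Cs W 0 := by
    refine ⟨fun p hp => ?_, fun q hq => absurd hq (Nat.not_lt_zero _)⟩
    rw [show p = 0 from Fin.ext (Nat.le_zero.1 hp)]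
    obtain ⟨r, hr, hadj, hall⟩ := hS.pre (Fin.last n) le_rfl true
    obtain ⟨q, hq, hqr, hqa⟩ := other hc (hS.hub (Fin.last n) le_rfl true) r
    rcases hall q hq hqa with h1 | ⟨q', v0, h1, h2⟩ | ⟨j, h1⟩ | h1
    · exact absurd h1 hqr
    · have h3 := q'.isLt
      have h4 : q'.val = n := h1
      omega
    · subst h1
      obtain ⟨-, h2⟩ : (Fin.last n).val = n ∧ ((true = true ∧ j.val = 0) ∨
        (true = false ∧ j.val = m)) := hqa
      rcases h2 with h2 | h2
      · rwa [show j = 0 from Fin.ext h2.2] at hq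
      · exact absurd h2.1 (by decide)
    · exact absurd (h1 ▸ hq) hz
  have key : ∀ i, i ≤ m → Cs W i := by
    intro i
    induction i with
    | zero => exact fun _ => h0
    | succ i ih => exact fun hi => (ih (by omega)).step hc hz hS (by omega)
  exact key m le_rfl

/-- literal `k` of clause `j` is the first true literal of the clause -/
def FT (φ : Fin m → Fin K → Fin n × Bool) (a : Fin n → Bool) (j : Fin m) (k : Fin K) : Prop :=
  a (φ j k).1 = (φ j k).2 ∧ ∀ k', k' < k → a (φ j k').1 ≠ (φ j k').2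

theorem ft_iff (j : Fin m) (k : Fin K) : FT φ a j k ↔ ∀ i, ¬ Forb φ j k i (a i) := by
  constructor
  · rintro ⟨h1, h2⟩ i (h3 | ⟨k', hk', h3⟩)
    · rw [h3] at h1
      have h4 : a i = !(a i) := h1
      cases hA : a i <;> simp [hA] at h4
    · refine h2 k' hk' ?_
      rw [h3]
  · intro h
    refine ⟨?_, fun k' hk' he => ?_⟩
    · by_contra hne
      refine h (φ j k).1 (Or.inl (Prod.ext rfl ?_))
      show (φ j k).2 = !(a (φ j k).1)
      cases hA : a (φ j k).1 <;> cases hB : (φ j k).2 <;> simp_all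
    · exact h (φ j k').1 (Or.inr ⟨k', hk', Prod.ext rfl he.symm⟩)

/-- the vertices of the circle of the assignment `a` -/
def Wp (φ : Fin m → Fin K → Fin n × Bool) (a : Fin n → Bool) : Vtx K n m → Prop
  | .h _ _ => True
  | .l q v _ => v = a q
  | .c _ => True
  | .o j k => FT φ a j k
  | .z => False

/-- the circles through the two special edges come from satisfying assignments -/
theorem forward (hc : IsChordlessCircle (satGraph φ) W) (hz : Vtx.z ∉ W)
    (hcm : Vtx.c (Fin.last m) ∈ W) (h0 : ∀ b, Vtx.h 0 b ∈ W) :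
    ∃ a : Fin n → Bool, (∀ j, ∃ k, a (φ j k).1 = (φ j k).2) ∧ ∀ v, (v ∈ W ↔ Wp φ a v) := by
  classical
  let a : Fin n → Bool := fun q => decide (Vtx.l q true true ∈ W)
  have ha : ∀ q : Fin n, a q = true ↔ Vtx.l q true true ∈ W := fun q => decide_eq_true_iff
  have hS := st_all hc hz hcm ha h0
  have hC := cs_all hc hz hS
  have hF : ∀ j k, Vtx.o j k ∈ W → FT φ a j k := fun j k h =>
    (ft_iff j k).2 fun i hi => hS.opt i i.isLt j k hi h
  have hu : ∀ j k k', FT φ a j k → FT φ a j k' → k = k' := by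
    intro j k k' h1 h2
    rcases lt_trichotomy k k' with h | h | h
    · exact absurd h1.1 (h2.2 k h)
    · exact h
    · exact absurd h2.1 (h1.2 k' h)
  refine ⟨a, fun j => ?_, fun v => ?_⟩
  · obtain ⟨k0, hk0⟩ := hC.op j j.isLt
    exact ⟨k0, (hF j k0 ((hk0 k0).2 rfl)).1⟩
  · cases v with
    | h p b => exact iff_of_true (hS.hub p (Nat.lt_succ_iff.1 p.isLt) b) trivial
    | l q v b => exact hS.lit q q.isLt v b
    | c j => exact iff_of_true (hC.cl j (Nat.lt_succ_iff.1 j.isLt)) trivial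
    | o j k =>
      refine ⟨hF j k, fun h => ?_⟩
      obtain ⟨k0, hk0⟩ := hC.op j j.isLt
      exact (hk0 k).2 (hu j k k0 h (hF j k0 ((hk0 k0).2 rfl)))
    | z => exact iff_of_false hz id

end Pool.Agent.MP275a7d
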